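import Mathlib
import Pool.Agent.U469.EW.Stm

/-!
# Package TB of project EW: the second criterion for the energy equality
-/

set_option autoImplicit false

open MeasureTheory Set Filter Topology
open scoped ENNReal
open Pool.Agent.U469.EW

namespace Pool.Agent.U810.EW.TB

theorem sq_nn (a : Fld) (k : Wv) : 0 ≤ sq a k := Finset.sum_nonneg fun i _ => by positivity

theorem nsq_nn (k : Wv) : 0 ≤ nsq k := Finset.sum_nonneg fun i _ => by positivity

theorem tail_nn (A : ℕ) (a : Fld) : 0 ≤ tail A a := by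
  refine tsum_nonneg fun k => ?_
  split_ifs
  · exact le_rfl
  · exact mul_nonneg (nsq_nn k) (sq_nn a k)

theorem continuous_amp (W : Finset Wv) (a : Fld) : Continuous (amp W a) := by
  unfold amp ev ch
  fun_prop

theorem ofReal_Q (W : Finset Wv) (a : Fld) :
    ENNReal.ofReal (∫ y in Icc (0 : Fin 3 → ℝ) 1, amp W a y ^ 2) =
      ∫⁻ y in Icc (0 : Fin 3 → ℝ) 1, ENNReal.ofReal (amp W a y ^ 2) := by
  refine ofReal_integral_eq_lintegral_ofReal ?_ (Eventually.of_forall fun y => sq_nonneg _)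
  exact ((continuous_amp W a).pow 2).continuousOn.integrableOn_compact isCompact_Icc

/-- the cutoff frequency -/
noncomputable def NN (A : ℕ) : ℕ := max 1 ⌈(A : ℝ) ^ (5 / 4 : ℝ)⌉₊

theorem one_le_NN (A : ℕ) : 1 ≤ NN A := le_max_left _ _

theorem NN_ge (A : ℕ) : (A : ℝ) ^ (5 / 4 : ℝ) ≤ NN A := by
  refine (Nat.le_ceil _).trans ?_
  exact_mod_cast le_max_right _ _

theorem NN_le {A : ℕ} (hA : 1 ≤ A) : (NN A : ℝ) ≤ 2 * (A : ℝ) ^ (5 / 4 : ℝ) := by
  have h1 : 1 ≤ (A : ℝ) ^ (5 / 4 : ℝ) := Real.one_le_rpow (by exact_mod_cast hA) (by norm_num)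
  unfold NN
  rw [Nat.cast_max]
  refine max_le ?_ ?_
  · push_cast
    linarith
  · have := Nat.ceil_lt_add_one (show 0 ≤ (A : ℝ) ^ (5 / 4 : ℝ) by positivity)
    linarith

theorem self_le_NN (A : ℕ) : A ≤ NN A := by
  rcases Nat.eq_zero_or_pos A with rfl | hA
  · exact Nat.zero_le _
  · have h1 : (1 : ℝ) ≤ A := by exact_mod_cast hA
    have h2 : (A : ℝ) ^ (1 : ℝ) ≤ (A : ℝ) ^ (5 / 4 : ℝ) :=
      Real.rpow_le_rpow_of_exponent_le h1 (by norm_num)
    rw [Real.rpow_one] at h2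
    exact_mod_cast h2.trans (NN_ge A)

theorem numeric (c : ℝ) (hc : 0 < c) : ∃ A0 : ℕ, ∀ A M : ℕ, A0 ≤ A →
    c * (A : ℝ) ^ (25 / 16 : ℝ) ≤ M →
    2 * A ≤ NN A ∧ 4 * NN A ≤ M ∧
    (A : ℝ) ^ (5 / 2 : ℝ) / (NN A : ℝ) ^ 2 + (NN A : ℝ) ^ (5 / 2 : ℝ) / (M : ℝ) ^ 2 ≤
      1 + 2 ^ (5 / 2 : ℝ) / c ^ 2 := by
  refine ⟨max 16 ⌈(8 / c) ^ 4⌉₊, fun A M hA hM => ?_⟩
  have hA16 : 16 ≤ A := (le_max_left _ _).trans hA
  have hA16' : (16 : ℝ) ≤ A := by exact_mod_cast hA16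
  have hAc : (8 / c) ^ 4 ≤ (A : ℝ) := (Nat.le_ceil _).trans (by
    exact_mod_cast (le_max_right _ _).trans hA)
  have hA0 : (0 : ℝ) ≤ A := Nat.cast_nonneg A
  have hA1 : (1 : ℝ) ≤ A := by linarith
  set P : ℝ := (A : ℝ) ^ (5 / 4 : ℝ) with hP
  have hPA : (A : ℝ) ≤ P := by
    have h2 : (A : ℝ) ^ (1 : ℝ) ≤ (A : ℝ) ^ (5 / 4 : ℝ) :=
      Real.rpow_le_rpow_of_exponent_le hA1 (by norm_num)
    rwa [Real.rpow_one] at h2
  have hP0 : 0 < P := by linarith
  have hNl : P ≤ NN A := NN_ge A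
  have hNu : (NN A : ℝ) ≤ 2 * P := NN_le (by omega)
  have hroot : ∀ z : ℝ, 0 ≤ z → (z ^ 4) ^ (1 / 4 : ℝ) = z := by
    intro z hz
    rw [← Real.rpow_natCast, ← Real.rpow_mul hz]
    norm_num
  have h1 : (A : ℝ) ^ (25 / 16 : ℝ) = P * P ^ (1 / 4 : ℝ) := by
    have h2 : P * P ^ (1 / 4 : ℝ) = P ^ (5 / 4 : ℝ) := by
      rw [show (5 / 4 : ℝ) = 1 + 1 / 4 by norm_num, Real.rpow_add hP0, Real.rpow_one]
    rw [h2, hP, ← Real.rpow_mul hA0]
    norm_num
  have h3 : 8 / c ≤ P ^ (1 / 4 : ℝ) := by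
    rw [← hroot (8 / c) (by positivity)]
    exact Real.rpow_le_rpow (by positivity) (hAc.trans hPA) (by norm_num)
  have h4 : 8 * P ≤ M := by
    refine le_trans ?_ hM
    rw [h1]
    have h5 : 8 ≤ c * P ^ (1 / 4 : ℝ) := by
      have := mul_le_mul_of_nonneg_left h3 hc.le
      rwa [mul_div_cancel₀ _ hc.ne'] at this
    nlinarith
  refine ⟨?_, ?_, add_le_add ?_ ?_⟩
  · have h5 : (2 : ℝ) ≤ (A : ℝ) ^ (1 / 4 : ℝ) := by
      rw [← hroot 2 (by norm_num)]
      exact Real.rpow_le_rpow (by norm_num) (by linarith) (by norm_num)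
    have h6 : P = A * (A : ℝ) ^ (1 / 4 : ℝ) := by
      rw [hP, show (5 / 4 : ℝ) = 1 + 1 / 4 by norm_num, Real.rpow_add (by linarith),
        Real.rpow_one]
    have h7 : (2 : ℝ) * A ≤ NN A := by
      refine le_trans ?_ hNl
      rw [h6]
      nlinarith
    exact_mod_cast h7
  · have h7 : (4 : ℝ) * NN A ≤ M := by linarith
    exact_mod_cast h7
  · have h5 : (A : ℝ) ^ (5 / 2 : ℝ) = P ^ 2 := by
      rw [hP, ← Real.rpow_natCast, ← Real.rpow_mul hA0]
      norm_num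
    rw [h5]
    refine div_le_one_of_le₀ ?_ (by positivity)
    exact pow_le_pow_left₀ hP0.le hNl 2
  · have h5 : (NN A : ℝ) ^ (5 / 2 : ℝ) ≤ 2 ^ (5 / 2 : ℝ) * P ^ (5 / 2 : ℝ) := by
      rw [← Real.mul_rpow (by norm_num) hP0.le]
      exact Real.rpow_le_rpow (by positivity) hNu (by norm_num)
    have h6 : c ^ 2 * P ^ (5 / 2 : ℝ) ≤ (M : ℝ) ^ 2 := by
      have h7 : (c * (A : ℝ) ^ (25 / 16 : ℝ)) ^ 2 ≤ (M : ℝ) ^ 2 :=
        pow_le_pow_left₀ (by positivity) hM 2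
      refine le_of_eq_of_le ?_ h7
      rw [mul_pow, hP, ← Real.rpow_mul hA0, ← Real.rpow_natCast ((A : ℝ) ^ (25 / 16 : ℝ)),
        ← Real.rpow_mul hA0]
      norm_num
    have hPp : 0 < P ^ (5 / 2 : ℝ) := Real.rpow_pos_of_pos hP0 _
    refine (div_le_div₀ (by positivity) h5 (by positivity) h6).trans (le_of_eq ?_)
    rw [mul_div_mul_right _ _ hPp.ne']

theorem amgm {x y ε : ℝ} (hx : 0 ≤ x) (hy : 0 ≤ y) (hε : 0 < ε) :
    √x * √y ≤ ε / 2 * x + 1 / (2 * ε) * y := by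
  have h1 := Real.sq_sqrt hx
  have h2 := Real.sq_sqrt hy
  have h3 : 0 ≤ (ε * √x - √y) ^ 2 / (2 * ε) := by positivity
  have h4 : (ε * √x - √y) ^ 2 / (2 * ε) = ε / 2 * x + 1 / (2 * ε) * y - √x * √y := by
    field_simp
    nlinarith
  linarith

theorem mem_box {N : ℕ} {k : Wv} : k ∈ box N ↔ ∀ i, |k i| ≤ N := by
  unfold box
  simp only [Fintype.mem_piFinset, Finset.mem_Icc, abs_le]

theorem t_TB (hF : S_FB) (hC : S_CUT) (hG : S_GD) (hL : S_LIM) : S_TB := by
  intro ν T f u hT hu c K hc A M hA hM hI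
  obtain ⟨C, hC0, hFB⟩ := hF
  obtain ⟨hgood, htm, -, -, htail⟩ := hG ν T f u hT hu
  obtain ⟨E, hE⟩ := hu.energy
  obtain ⟨A0, hA0⟩ := numeric c hc
  refine hL ν T f u hT hu (fun n => box (2 * NN (A n))) (fun n => cut (NN (A n)))
    (fun n => (hC _ (one_le_NN _)).1) (fun k => ?_) ?_
  · -- the weights tend to one
    have h1 : ∀ᶠ n in atTop, (∑ i, (k i).natAbs) ≤ A n := hA.eventually_ge_atTop _
    filter_upwards [h1] with n hn
    have h2 : ∀ i, |k i| ≤ (NN (A n) : ℤ) := by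
      intro i
      have h3 : (k i).natAbs ≤ ∑ i, (k i).natAbs :=
        Finset.single_le_sum (f := fun i => (k i).natAbs) (fun _ _ => Nat.zero_le _)
          (Finset.mem_univ i)
      have h4 := (h3.trans hn).trans (self_le_NN (A n))
      rw [Int.abs_eq_natAbs]
      exact_mod_cast h4
    refine ⟨mem_box.2 fun i => (h2 i).trans ?_, (hC _ (one_le_NN _)).2.2.1 k (mem_box.2 h2)⟩
    push_cast
    linarith [Nat.cast_nonneg (α := ℤ) (NN (A n))]
  · -- the fluxes tend to zero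
    have htA := htail.comp hA
    rw [ENNReal.tendsto_nhds_zero]
    intro δ hδ
    -- a real number below `δ`
    have hδ' : min δ 1 ≠ ⊤ := ne_top_of_le_ne_top ENNReal.one_ne_top (min_le_right _ _)
    set δr : ℝ := (min δ 1).toReal with hδr
    have hδr0 : 0 < δr := ENNReal.toReal_pos (lt_min hδ one_pos).ne' hδ'
    have hδrle : ENNReal.ofReal δr ≤ δ := by
      rw [hδr, ENNReal.ofReal_toReal hδ']
      exact min_le_left _ _
    set K' : ℝ := max K 0 with hK'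
    have hK'0 : 0 ≤ K' := le_max_right _ _
    have hKK' : ENNReal.ofReal K ≤ ENNReal.ofReal K' := ENNReal.ofReal_le_ofReal (le_max_left _ _)
    set ε : ℝ := δr / (K' + 1) with hε
    have hε0 : 0 < ε := by positivity
    have hεK : ε / 2 * K' ≤ δr / 2 := by
      have h1 : ε * K' ≤ δr := by
        rw [hε, div_mul_eq_mul_div, div_le_iff₀ (by positivity)]
        nlinarith
      linarith
    set E' : ℝ := max E 0 with hE'
    set C'' : ℝ := C * (1 + 2 ^ (5 / 2 : ℝ) / c ^ 2) * √E' + 1 / (2 * ε) with hC''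
    have hC''0 : 0 ≤ C'' := by positivity
    have h1 : ∀ᶠ n in atTop, ENNReal.ofReal C'' *
        ∫⁻ t in Icc 0 T, ENNReal.ofReal (tail (A n) (u t)) ≤ ENNReal.ofReal (δr / 2) := by
      have h2 := ENNReal.Tendsto.const_mul (a := ENNReal.ofReal C'') htA
        (Or.inr ENNReal.ofReal_ne_top)
      rw [mul_zero] at h2
      exact (ENNReal.tendsto_nhds_zero.1 h2) _ (ENNReal.ofReal_pos.2 (by linarith))
    filter_upwards [h1, hA.eventually_ge_atTop A0] with n hn hnA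
    obtain ⟨hn1, hn2, hn3⟩ := hA0 (A n) (M n) hnA (hM n)
    -- the pointwise bound
    have h2 : ∀ᵐ t ∂(volume.restrict (Icc 0 T)),
        ENNReal.ofReal |flux (box (2 * NN (A n))) (cut (NN (A n))) (u t)| ≤
          ENNReal.ofReal C'' * ENNReal.ofReal (tail (A n) (u t)) +
          ENNReal.ofReal (ε / 2) * ∫⁻ y in Icc (0 : Fin 3 → ℝ) 1,
            ENNReal.ofReal (amp (win (A n) (M n)) (u t) y ^ 2) := by
      filter_upwards [hgood, ae_restrict_mem measurableSet_Icc] with t ht htT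
      have h3 := hFB (u t) ht (A n) (NN (A n)) (M n) (one_le_NN _) hn1 hn2
      set Q : ℝ := ∫ y in Icc (0 : Fin 3 → ℝ) 1, amp (win (A n) (M n)) (u t) y ^ 2 with hQ
      have hQ0 : 0 ≤ Q := integral_nonneg fun y => sq_nonneg _
      have htl : 0 ≤ tail (A n) (u t) := tail_nn _ _
      have h4 : ∑' k, sq (u t) k ≤ E' := by
        have h5 := hE t htT
        rw [← ENNReal.ofReal_tsum_of_nonneg (fun k => sq_nn _ k) ht.s0] at h5
        have h6 : ENNReal.ofReal (∑' k, sq (u t) k) ≤ ENNReal.ofReal E' :=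
          h5.trans (ENNReal.ofReal_le_ofReal (le_max_left _ _))
        exact (ENNReal.ofReal_le_ofReal_iff (le_max_right _ _)).1 h6
      have h5 : √(∑' k, sq (u t) k) ≤ √E' := Real.sqrt_le_sqrt h4
      have h6 := amgm hQ0 htl hε0
      have h7 : |flux (box (2 * NN (A n))) (cut (NN (A n))) (u t)| ≤
          C'' * tail (A n) (u t) + ε / 2 * Q := by
        refine h3.trans ?_
        have h8 : C * ((A n : ℝ) ^ (5 / 2 : ℝ) / (NN (A n) : ℝ) ^ 2 +
            (NN (A n) : ℝ) ^ (5 / 2 : ℝ) / (M n : ℝ) ^ 2) * √(∑' k, sq (u t) k) ≤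
            C * (1 + 2 ^ (5 / 2 : ℝ) / c ^ 2) * √E' := by
          refine mul_le_mul (mul_le_mul_of_nonneg_left hn3 hC0.le) h5 (Real.sqrt_nonneg _) ?_
          positivity
        have h9 := mul_le_mul_of_nonneg_right h8 htl
        rw [hC'']
        linarith
      calc ENNReal.ofReal |flux (box (2 * NN (A n))) (cut (NN (A n))) (u t)|
          ≤ ENNReal.ofReal (C'' * tail (A n) (u t) + ε / 2 * Q) := ENNReal.ofReal_le_ofReal h7
        _ = ENNReal.ofReal C'' * ENNReal.ofReal (tail (A n) (u t)) +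
            ENNReal.ofReal (ε / 2) * ENNReal.ofReal Q := by
          rw [ENNReal.ofReal_add (by positivity) (by positivity), ENNReal.ofReal_mul hC''0,
            ENNReal.ofReal_mul (by positivity)]
        _ = _ := by rw [hQ, ofReal_Q]
    calc ∫⁻ t in Icc 0 T, ENNReal.ofReal |flux (box (2 * NN (A n))) (cut (NN (A n))) (u t)|
        ≤ ∫⁻ t in Icc 0 T, (ENNReal.ofReal C'' * ENNReal.ofReal (tail (A n) (u t)) +
          ENNReal.ofReal (ε / 2) * ∫⁻ y in Icc (0 : Fin 3 → ℝ) 1,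
            ENNReal.ofReal (amp (win (A n) (M n)) (u t) y ^ 2)) := lintegral_mono_ae h2
      _ = ENNReal.ofReal C'' * (∫⁻ t in Icc 0 T, ENNReal.ofReal (tail (A n) (u t))) +
          ENNReal.ofReal (ε / 2) * ∫⁻ t in Icc 0 T, ∫⁻ y in Icc (0 : Fin 3 → ℝ) 1,
            ENNReal.ofReal (amp (win (A n) (M n)) (u t) y ^ 2) := by
        rw [lintegral_add_left' ((htm (A n)).const_mul _),
          lintegral_const_mul' _ _ ENNReal.ofReal_ne_top,
          lintegral_const_mul' _ _ ENNReal.ofReal_ne_top]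
      _ ≤ ENNReal.ofReal (δr / 2) + ENNReal.ofReal (ε / 2) * ENNReal.ofReal K' :=
        add_le_add hn (mul_le_mul_right ((hI n).trans hKK') _)
      _ = ENNReal.ofReal (δr / 2 + ε / 2 * K') := by
        rw [ENNReal.ofReal_add (by positivity) (by positivity), ENNReal.ofReal_mul (by positivity)]
      _ ≤ ENNReal.ofReal δr := ENNReal.ofReal_le_ofReal (by linarith)
      _ ≤ δ := hδrle

end Pool.Agent.U810.EW.TB
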